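import Pool.Agent.H35.M.NoAt
import Pool.Agent.H5.NOAT.Cls
import Pool.Agent.H69.NJ.Pk

/-!
# The volume has no jumps: the package

`no_atom_pk`: the volume is continuous at `wc`, if the labels at another time are few bits given the
exact point (`hH2`), and the falling level has the geometry `VPlS` at the windows on both sides of
`wc` (`hv`). `G`: a set of almost all windows; the orders are arbitrary.
-/

set_option autoImplicit false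

namespace Pool.NAT35

open MeasureTheory Set Filter Topology
open Pool.Agent.H49.Ent Pool.Agent.H32.Dense Pool.STK Pool.KA Pool.KSAT Pool.K2S Pool.PB
open Pool.GEN Pool.S6C Pool.GRW Pool.PKG Pool.R1
open Pool.ONE (lst)
open Pool.STR (FinW)
open Pool.PLN (H2S)
open Pool.PM (VPlS)

variable {n : ℕ} {hn : 2 ≤ n} {S : PCl n} {P : ℝ → ℝ → ℝ} {r : ℝ → ℝ}
  {P' : ℕ → List (Fin n) × Fin n → ℝ → ℝ → ℝ} {Λ : Finset (Fin n) → Fin n → ℝ → ℝ → ℝ}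

/-- The good windows in a set of almost all windows are dense. -/
theorem ex_gwG (H : Pk hn S P r P' Λ) {G : Set ℝ} (hG : ∀ᵐ w : ℝ, 0 < w → w < 1 → w ∈ G)
    (x y : ℝ) (hx : 0 ≤ x) (hxy : x < y) (hy : y ≤ 1) :
    ∃ w, x < w ∧ w < y ∧ w ∈ Wr P P' Λ ∩ G := by
  by_contra hcon
  push Not at hcon
  have h1 := (wr_ae H).and hG
  have h2 : volume (Set.Ioo x y) = 0 := by
    refine measure_mono_null (fun v hv => ?_) (ae_iff.1 h1)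
    rintro ⟨h4, h5⟩
    have h6 := hx.trans_lt hv.1
    have h7 := hv.2.trans_le hy
    exact hcon v hv.1 hv.2 ⟨h4 h6 h7, h5 h6 h7⟩
  rw [Real.volume_Ioo, ENNReal.ofReal_eq_zero] at h2
  linarith

/-- The second numbers are calm. -/
theorem fin_sig (H : Pk hn S P r P' Λ) (h3 : 3 ≤ n) (hF2 : FZX 2) {wc : ℝ} (hc1 : wc < 1)
    (hH2 : ∃ C η : ℝ, 0 ≤ C ∧ 0 < η ∧ ∀ w₁ ∈ Wr P P' Λ, wc < w₁ → w₁ < wc + η → ∀ w₀ : ℝ,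
      0 < w₀ → w₀ < wc → H2S S w₀ w₁ (C * (w₁ - w₀)))
    (σ : Equiv.Perm (Fin (n - 1))) (hσ : σ ∈ Og n) :
    FinW (fun w => Λ {cc hn σ 0} (cc hn σ 1) w w) (Wr P P' Λ) wc := by
  refine Pool.NJ69.fin_lam H h3 hF2 ?_ (fun h => ?_) hc1 hH2
  · rw [cc_lt hn σ (show 0 < n - 1 by omega)]
    exact hσ _ rfl
  · have := cc_inj' hn σ (i := 1) (j := 0) (by omega) (by omega) h
    omega

/-- The labels at another time, at windows which tend to `wc`. -/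
theorem h2_small {W : Set ℝ} {wc : ℝ} (hc0 : 0 < wc)
    (hH2 : ∃ C η : ℝ, 0 ≤ C ∧ 0 < η ∧ ∀ w₁ ∈ W, wc < w₁ → w₁ < wc + η → ∀ w₀ : ℝ,
      0 < w₀ → w₀ < wc → H2S S w₀ w₁ (C * (w₁ - w₀))) {e : ℝ} (he : 0 < e) :
    ∃ d : ℝ, 0 < d ∧ ∀ w₀ : ℝ, ∀ w₁ ∈ W, wc - d < w₀ → w₀ < wc → wc < w₁ → w₁ < wc + d →
      H2S S w₀ w₁ e := by
  obtain ⟨C, η, hC, hη, h⟩ := hH2
  refine ⟨min (min η wc) (e / (2 * (C + 1))), lt_min (lt_min hη hc0) (by positivity), ?_⟩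
  intro w₀ w₁ hw₁ a1 a2 a3 a4
  have k1 : min (min η wc) (e / (2 * (C + 1))) ≤ η := (min_le_left _ _).trans (min_le_left _ _)
  have k2 : min (min η wc) (e / (2 * (C + 1))) ≤ wc := (min_le_left _ _).trans (min_le_right _ _)
  have k3 : min (min η wc) (e / (2 * (C + 1))) ≤ e / (2 * (C + 1)) := min_le_right _ _
  have h1 := h w₁ hw₁ a3 (by linarith) w₀ (by linarith) a2
  have h2 : C * (w₁ - w₀) ≤ e := by
    have h3 : w₁ - w₀ ≤ e / (C + 1) := by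
      have : e / (C + 1) = e / (2 * (C + 1)) + e / (2 * (C + 1)) := by
        field_simp
        ring
      linarith
    refine (mul_le_mul_of_nonneg_left h3 hC).trans ?_
    rw [mul_div_assoc', div_le_iff₀ (by linarith)]
    nlinarith
  intro ρ hρ
  refine (h1 ρ hρ).mono 0 ?_
  intro J _ F A h3 V z z' hz
  refine (h3 V z z' hz).trans ?_
  exact mul_le_mul_of_nonneg_right (by linarith) (Nat.cast_nonneg J)

/-- **The volume has no jump**, for a package. -/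
theorem no_atom_pk (H : Pk hn S P r P' Λ) (h3 : 3 ≤ n) (hF2 : FZX 2) {G : Set ℝ}
    (hG : ∀ᵐ w : ℝ, 0 < w → w < 1 → w ∈ G) {wc : ℝ} (hc0 : 0 < wc) (hc1 : wc < 1)
    (hH2 : ∃ C η : ℝ, 0 ≤ C ∧ 0 < η ∧ ∀ w₁ ∈ Wr P P' Λ, wc < w₁ → w₁ < wc + η → ∀ w₀ : ℝ,
      0 < w₀ → w₀ < wc → H2S S w₀ w₁ (C * (w₁ - w₀)))
    (hv : ∀ g : ℝ, 0 < g → (∀ a b : ℝ, a < wc → wc < b → g ≤ vx P P' Λ b - vx P P' Λ a) →
      ∃ C : ℝ, 1 ≤ C ∧ ∀ ε : ℝ, 0 < ε → ∃ d : ℝ, 0 < d ∧ ∀ w₀ ∈ Wr P P' Λ ∩ G,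
        ∀ w₁ ∈ Wr P P' Λ ∩ G, wc - d < w₀ → w₀ < wc → wc < w₁ → w₁ < wc + d →
        ∃ (σ : Equiv.Perm (Fin (n - 1))) (β : ℕ → ℝ) (y mv : ℝ), σ ∈ Og n ∧
          w₀ ≤ β 0 ∧ Λ {cc hn σ 0} (cc hn σ 1) w₀ w₀ ≤ β 1 ∧ y ≤ ε ∧ g - ε ≤ mv ∧
          VPlS S (cc hn σ) β w₀ w₁ y mv (1 / 4) C) :
    ContinuousAt (vx P P' Λ) wc := by
  have hC' := H.cl
  obtain ⟨al, g₀, s, d, e, K₀, N, hal, hg₀, hC⟩ := hC'
  refine no_atom_gen H h3 hF2 (W := Wr P P' Λ ∩ G) Set.inter_subset_left (ex_gwG H hG) hc0 hc1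
    (V := fun c β w₀ w₁ y mv C => VPlS S c β w₀ w₁ y mv (1 / 4) C)
    (fun c => Pool.NOA.atvS (c := c) hC.ne (fun τ J F A hA => hC.pos τ J F A hA))
    (fun e he => ?_) (fin_sig H h3 hF2 hc1 hH2) hv
  obtain ⟨d, hd, h⟩ := h2_small hc0 hH2 he
  exact ⟨d, hd, fun w₀ _ w₁ hw₁ => h w₀ w₁ hw₁.1⟩

/-- **The volume has no jump**, the constants of the geometry do not depend on the windows. -/
theorem no_atom_pkF (H : Pk hn S P r P' Λ) (h3 : 3 ≤ n) (hF2 : FZX 2) {G : Set ℝ}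
    (hG : ∀ᵐ w : ℝ, 0 < w → w < 1 → w ∈ G) {wc : ℝ} (hc0 : 0 < wc) (hc1 : wc < 1)
    (hH2 : ∃ C η : ℝ, 0 ≤ C ∧ 0 < η ∧ ∀ w₁ ∈ Wr P P' Λ, wc < w₁ → w₁ < wc + η → ∀ w₀ : ℝ,
      0 < w₀ → w₀ < wc → H2S S w₀ w₁ (C * (w₁ - w₀)))
    {vc : ℝ → ℝ} (hvc : FinW vc (Wr P P' Λ) wc)
    (hv : ∀ g : ℝ, 0 < g → (∀ a b : ℝ, a < wc → wc < b → g ≤ vx P P' Λ b - vx P P' Λ a) →
      ∃ C A d : ℝ, 1 ≤ C ∧ 0 ≤ A ∧ 0 < d ∧ ∀ w₀ ∈ Wr P P' Λ ∩ G, ∀ w₁ ∈ Wr P P' Λ ∩ G,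
        wc - d < w₀ → w₀ < wc → wc < w₁ → w₁ < wc + d →
        ∃ (σ : Equiv.Perm (Fin (n - 1))) (β : ℕ → ℝ) (y mv : ℝ), σ ∈ Og n ∧
          w₀ ≤ β 0 ∧ Λ {cc hn σ 0} (cc hn σ 1) w₀ w₀ ≤ β 1 ∧
          y ≤ A * ((w₁ - w₀) + (vc w₁ - vc w₀)) ∧ vx P P' Λ w₁ - vx P P' Λ w₀ ≤ y + mv ∧
          VPlS S (cc hn σ) β w₀ w₁ y mv (1 / 4) C) :
    ContinuousAt (vx P P' Λ) wc := by
  have hC' := H.cl
  obtain ⟨al, g₀, s, d, e, K₀, N, hal, hg₀, hC⟩ := hC'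
  refine no_atom_fin H h3 hF2 (W := Wr P P' Λ ∩ G) Set.inter_subset_left (ex_gwG H hG) hc0 hc1
    (V := fun c β w₀ w₁ y mv C => VPlS S c β w₀ w₁ y mv (1 / 4) C)
    (fun c => Pool.NOA.atvS (c := c) hC.ne (fun τ J F A hA => hC.pos τ J F A hA))
    (fun e he => ?_) (fin_sig H h3 hF2 hc1 hH2) hvc hv
  obtain ⟨d, hd, h⟩ := h2_small hc0 hH2 he
  exact ⟨d, hd, fun w₀ _ w₁ hw₁ => h w₀ w₁ hw₁.1⟩

end Pool.NAT35
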