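import Pool.Agent.H96.R1.Cvx
import Pool.Agent.H96.R1.Twc
import Pool.Agent.H93.GEN.RowS
import Pool.Agent.H1.PLN.Stm

/-!
# The volume has no jumps

`exv_two`: exactness of the first two coordinates of an order, at almost every window.
`no_atom_gen`: if the fall of the third number is bounded by the loss of exactness of the first two
coordinates (`hA`), and the second numbers are calm, the volume is continuous. `no_atom_fin`: the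
same, the calm levels are given by a function.
-/

set_option autoImplicit false

namespace Pool.NAT35

open MeasureTheory Set Filter Topology
open Pool.Agent.H49.Ent Pool.Agent.H32.Dense Pool.STK Pool.KA Pool.KSAT Pool.K2S Pool.PB
open Pool.GEN Pool.S6C Pool.GRW Pool.PKG Pool.R1
open Pool.ONE (lst)
open Pool.M3F (ExvY)
open Pool.STR (FinW)
open Pool.PLN (H2S)

variable {n : ℕ}

/-- The first two coordinates of an order. -/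
def e2 (h3 : 3 ≤ n) (σ : Equiv.Perm (Fin (n - 1))) (i : Fin 2) : Fin n :=
  bse (σ ⟨i, by have := i.2; omega⟩)

theorem e2_inj (h3 : 3 ≤ n) (σ : Equiv.Perm (Fin (n - 1))) : Function.Injective (e2 h3 σ) := by
  intro a b h
  have h1 := σ.injective (bse_inj h)
  have h2 := congrArg Fin.val h1
  exact Fin.ext h2

theorem cc_e2 (hn : 2 ≤ n) (h3 : 3 ≤ n) (σ : Equiv.Perm (Fin (n - 1))) (i : Fin 2) :
    cc hn σ i = e2 h3 σ i := cc_lt hn σ (by have := i.2; omega)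

theorem img_e2 (h3 : 3 ≤ n) (σ : Equiv.Perm (Fin (n - 1))) {j : ℕ} (h2 : j < 2)
    (hj : j < n - 1) : (Finset.Iio (⟨j, h2⟩ : Fin 2)).image (e2 h3 σ) =
      (Finset.Iio (⟨j, hj⟩ : Fin (n - 1))).image (fun i => bse (σ i)) := by
  ext x
  simp only [Finset.mem_image, Finset.mem_Iio, Fin.lt_def]
  constructor
  · rintro ⟨l, h1, rfl⟩
    exact ⟨⟨l, by omega⟩, h1, rfl⟩
  · rintro ⟨l, h1, rfl⟩
    exact ⟨⟨l, by omega⟩, h1, rfl⟩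

/-- The numbers of the first two coordinates. -/
theorem vs_e2 (Λ : Finset (Fin n) → Fin n → ℝ → ℝ → ℝ) (h3 : 3 ≤ n)
    (σ : Equiv.Perm (Fin (n - 1))) (w : ℝ) :
    ∀ j : ℕ, j ≤ 2 → vs Λ (e2 h3 σ) w j = vs Λ (fun i => bse (σ i)) w j := by
  intro j
  induction j with
  | zero => exact fun _ => rfl
  | succ j ih =>
    intro hj
    have h1 : j < 2 := by omega
    have h2 : j < n - 1 := by omega
    simp only [vs]
    rw [dif_pos h1, dif_pos h2, ih (by omega), img_e2 h3 σ h1 h2]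
    rfl

variable {hn : 2 ≤ n} {S : PCl n} {P : ℝ → ℝ → ℝ} {r : ℝ → ℝ}
  {P' : ℕ → List (Fin n) × Fin n → ℝ → ℝ → ℝ} {Λ : Finset (Fin n) → Fin n → ℝ → ℝ → ℝ}

/-- The first number is the window. -/
theorem vs_one (H : Pk hn S P r P' Λ) {σ : Equiv.Perm (Fin (n - 1))} (hσ : σ ∈ Og n) {w : ℝ}
    (h0 : 0 ≤ w) (h1 : w < 1) : vs Λ (fun i => bse (σ i)) w 1 = w := by
  obtain ⟨al, g₀, s, d, e, K₀, N, hal, hg₀, hC⟩ := H.cl
  have hk : 0 < n - 1 := by omega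
  have h2 : vs Λ (fun i => bse (σ i)) w 1 =
      Λ ((Finset.Iio (⟨0, hk⟩ : Fin (n - 1))).image (fun i => bse (σ i))) (bse (σ ⟨0, hk⟩)) w w := by
    have : vs Λ (fun i => bse (σ i)) w (0 + 1) = _ := rfl
    rw [zero_add] at this
    simp only [vs]
    rw [dif_pos hk]
  have h3 : (Finset.Iio (⟨0, hk⟩ : Fin (n - 1))).image (fun i => bse (n := n) (σ i)) = ∅ := by
    rw [Finset.image_eq_empty]
    ext x
    simp only [Finset.mem_Iio, Finset.notMem_empty, iff_false, not_lt, Fin.le_def]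
    omega
  rw [h2, h3]
  exact H.lam.act hC.ne hal (hC.actm.q hg₀) (hC.actb _ (hσ _ rfl)) H.pos h0 h1

/-- The windows at which the numbers of the first two coordinates are continuous. -/
def W2 (Λ : Finset (Fin n) → Fin n → ℝ → ℝ → ℝ) (h3 : 3 ≤ n) : Set ℝ :=
  {w | ∀ σ : Equiv.Perm (Fin (n - 1)), Vct Λ (e2 h3 σ) w}

theorem w2_ae (H : Pk hn S P r P' Λ) (h3 : 3 ≤ n) : ∀ᵐ w : ℝ, w ∈ W2 Λ h3 := by
  refine ae_all_iff.2 fun σ => ?_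
  have h1 : ∀ᵐ w : ℝ, w ∉ {w | ¬ Vct Λ (e2 h3 σ) w} := (vct_ae H.lam (e2 h3 σ)).ae_notMem _
  filter_upwards [h1] with w h2
  by_contra hcon
  exact h2 hcon

theorem ex_gw2 (H : Pk hn S P r P' Λ) (h3 : 3 ≤ n) {x y : ℝ} (hx : 0 ≤ x) (hxy : x < y)
    (hy : y ≤ 1) : ∃ w, x < w ∧ w < y ∧ w ∈ Wr P P' Λ ∧ w ∈ W2 Λ h3 := by
  by_contra hcon
  push Not at hcon
  have h1 := (wr_ae H).and (w2_ae H h3)
  have h2 : volume (Set.Ioo x y) = 0 := by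
    refine measure_mono_null (fun v hv => ?_) (ae_iff.1 h1)
    rintro ⟨h4, h5⟩
    exact hcon v hv.1 hv.2 (h4 (hx.trans_lt hv.1) (hv.2.trans_le hy)) h5
  rw [Real.volume_Ioo, ENNReal.ofReal_eq_zero] at h2
  linarith

/-- The order of the first two coordinates is greedy. -/
theorem wv_e2 (H : Pk hn S P r P' Λ) (h3 : 3 ≤ n) {σ : Equiv.Perm (Fin (n - 1))}
    (hσ : σ ∈ Og n) {w : ℝ} (h0 : 0 < w) (h1 : w < 1) (hw : w ∈ W2 Λ h3) :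
    w ∈ Wv Λ (e2 h3 σ) := by
  refine ⟨h0, h1, fun j k hjk => ?_, hw σ⟩
  rcases eq_or_lt_of_le hjk with rfl | hlt
  · rw [vs_succ]
  · have hj : (j : ℕ) = 0 := by
      have h2 : (j : ℕ) < k := hlt
      have h4 := k.2
      omega
    have h2 : vs Λ (e2 h3 σ) w ((j : ℕ) + 1) = w := by
      rw [vs_e2 Λ h3 σ w _ (by omega), hj]
      exact vs_one H hσ h0.le h1
    rw [h2]
    exact H.lam.low _ _ _ _ h1.le

/-- Exactness of the first two coordinates. -/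
theorem vexa_e2 (H : Pk hn S P r P' Λ) (h3 : 3 ≤ n) (hF2 : FZX 2)
    {σ : Equiv.Perm (Fin (n - 1))} (hσ : σ ∈ Og n) {w : ℝ} (h0 : 0 < w) (h1 : w < 1)
    (hw : w ∈ W2 Λ h3) : VExa S Λ (e2 h3 σ) w := by
  obtain ⟨al, g₀, s, d, e, K₀, N, hal, hg₀, hC⟩ := H.cl
  have hv := wv_e2 H h3 hσ h0 h1 hw
  intro ρ hρ
  refine vst_exa hF2 hC.ne (C₀ := 6) (by norm_num) H.tmc H.lam hal hg₀ hC.actm H.pos
    (e2_inj h3 σ) (fun k hk => hC.actb _ ?_) h0 h1 hv.2.2.1 hv.2.2.2 hρ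
  exact hσ _ hk

/-- **Exactness of the first two coordinates**, the numbers are those of the order. -/
theorem exv_two (H : Pk hn S P r P' Λ) (h3 : 3 ≤ n) (hF2 : FZX 2)
    {σ : Equiv.Perm (Fin (n - 1))} (hσ : σ ∈ Og n) {w : ℝ} (h0 : 0 < w) (h1 : w < 1)
    (hw : w ∈ W2 Λ h3) {ρ : ℝ} (hρ : 0 < ρ) :
    ExvY S w (fun J F ω (i : Fin 2) => F.X J ω (cc hn σ i))
      (((1 - w) + (1 - vs Λ (fun i => bse (σ i)) w 2)) - ρ) := by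
  have h2 := vexa_e2 H h3 hF2 hσ h0 h1 hw ρ hρ
  refine h2.mono 0 ?_
  intro J _ F A h4 V z z' hz
  have h5 := h4 V z z' hz
  have h6 : ∑ j : Fin 2, (1 - vs Λ (e2 h3 σ) w (j + 1)) =
      (1 - w) + (1 - vs Λ (fun i => bse (σ i)) w 2) := by
    rw [Fin.sum_univ_two]
    have e1 := vs_e2 Λ h3 σ w 1 (by norm_num)
    have e3 := vs_e2 Λ h3 σ w 2 le_rfl
    rw [vs_one H hσ h0.le h1] at e1
    have e4 : vs Λ (e2 h3 σ) w (((0 : Fin 2) : ℕ) + 1) = vs Λ (e2 h3 σ) w 1 := rfl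
    have e5 : vs Λ (e2 h3 σ) w (((1 : Fin 2) : ℕ) + 1) = vs Λ (e2 h3 σ) w 2 := rfl
    rw [e4, e5, e1, e3]
  rw [h6] at h5
  have h7 : (fun (ω : F.Ω) (i : Fin 2) => F.X J ω (cc hn σ i)) =
      fun ω j => F.X J ω (e2 h3 σ j) := by
    funext ω i
    rw [cc_e2 hn h3 σ i]
  show _ ≤ CH (Pool.Agent.H49.Ent.cond F.p A True)
    (fun (ω : F.Ω) (i : Fin 2) => F.X J ω (cc hn σ i))
    (fun ω => (z' (slam F ⌊w * J⌋₊ ω), F.W ω))
  rw [h7]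
  exact h5

/-- The second number of an order. -/
theorem vs_two (H : Pk hn S P r P' Λ) (h3 : 3 ≤ n) {σ : Equiv.Perm (Fin (n - 1))} (hσ : σ ∈ Og n)
    {w : ℝ} (h0 : 0 ≤ w) (h1 : w < 1) :
    vs Λ (fun i => bse (σ i)) w 2 = Λ {cc hn σ 0} (cc hn σ 1) w w := by
  have h2 : 1 < n - 1 := by omega
  have h4 : vs Λ (fun i => bse (σ i)) w 2 = Λ ((Finset.Iio (⟨1, h2⟩ : Fin (n - 1))).image
      (fun i => bse (σ i))) (bse (σ ⟨1, h2⟩)) w (vs Λ (fun i => bse (σ i)) w 1) := by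
    conv_lhs => rw [vs]
    rw [dif_pos h2]
  have h5 : (Finset.Iio (⟨1, h2⟩ : Fin (n - 1))).image (fun i => bse (n := n) (σ i)) =
      {cc hn σ 0} := by
    rw [cc_lt hn σ (show 0 < n - 1 by omega)]
    ext x
    simp only [Finset.mem_image, Finset.mem_Iio, Fin.lt_def, Finset.mem_singleton]
    constructor
    · rintro ⟨l, h1, rfl⟩
      have : l = ⟨0, by omega⟩ := Fin.ext (by simp only; omega)
      rw [this]
    · rintro rfl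
      exact ⟨⟨0, by omega⟩, by norm_num, rfl⟩
  rw [h4, h5, vs_one H hσ h0 h1, cc_lt hn σ h2]

/-- **The volume has no jump.** `V c β w₀ w₁ y mv C`: the geometry of the pairs at two windows, for
the order `c`, with the numbers `β` at the first window; `y`: the growth of the first two numbers;
`mv`: the growth of the third number. `hA`: the third number grows by at most the loss of
exactness of the first two coordinates. `W`: the windows for which the geometry is given. -/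
theorem no_atom_gen (H : Pk hn S P r P' Λ) (h3 : 3 ≤ n) (hF2 : FZX 2) {W : Set ℝ}
    (hW : W ⊆ Wr P P' Λ)
    (hWd : ∀ x y : ℝ, 0 ≤ x → x < y → y ≤ 1 → ∃ w, x < w ∧ w < y ∧ w ∈ W) {wc : ℝ}
    (hc0 : 0 < wc) (hc1 : wc < 1)
    {V : (ℕ → Fin n) → (ℕ → ℝ) → ℝ → ℝ → ℝ → ℝ → ℝ → Prop}
    (hA : ∀ (c : ℕ → Fin n) (w₂ b ρ : ℝ), 0 < w₂ → w₂ ≤ 1 → 0 < ρ →
      ExvY S w₂ (fun J F ω (i : Fin 2) => F.X J ω (c i)) b → ∃ e₀ : ℝ, 0 < e₀ ∧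
      ∀ (w₀ w₁ e y mv C s : ℝ) (β : ℕ → ℝ), 0 ≤ w₀ → w₀ ≤ w₁ → w₁ ≤ w₂ → e ≤ e₀ →
        H2S S w₀ w₁ e → V c β w₀ w₁ y mv C → 1 ≤ C → 0 < s → C * y ≤ s → C * s ≤ mv →
        mv ≤ ∑ i ∈ Finset.range 2, (1 - β i) - b + 6 * C * s + ρ)
    (h2 : ∀ e : ℝ, 0 < e → ∃ d : ℝ, 0 < d ∧ ∀ w₀ ∈ W, ∀ w₁ ∈ W, wc - d < w₀ →
      w₀ < wc → wc < w₁ → w₁ < wc + d → H2S S w₀ w₁ e)
    (hf : ∀ σ : Equiv.Perm (Fin (n - 1)), σ ∈ Og n →
      FinW (fun w => Λ {cc hn σ 0} (cc hn σ 1) w w) (Wr P P' Λ) wc)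
    (hv : ∀ g : ℝ, 0 < g → (∀ a b : ℝ, a < wc → wc < b → g ≤ vx P P' Λ b - vx P P' Λ a) →
      ∃ C : ℝ, 1 ≤ C ∧ ∀ ε : ℝ, 0 < ε → ∃ d : ℝ, 0 < d ∧ ∀ w₀ ∈ W, ∀ w₁ ∈ W,
        wc - d < w₀ → w₀ < wc → wc < w₁ → w₁ < wc + d →
        ∃ (σ : Equiv.Perm (Fin (n - 1))) (β : ℕ → ℝ) (y mv : ℝ), σ ∈ Og n ∧
          w₀ ≤ β 0 ∧ Λ {cc hn σ 0} (cc hn σ 1) w₀ w₀ ≤ β 1 ∧ y ≤ ε ∧ g - ε ≤ mv ∧
          V (cc hn σ) β w₀ w₁ y mv C) :
    ContinuousAt (vx P P' Λ) wc := by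
  classical
  by_contra hcon
  obtain ⟨g, hg, hj⟩ := jump_vx H hcon
  obtain ⟨C, hC, hv⟩ := hv g hg hj
  -- the numbers
  obtain ⟨ε, hε⟩ : ∃ ε : ℝ, ε = g / (64 * C * C) := ⟨_, rfl⟩
  have hε0 : 0 < ε := by rw [hε]; positivity
  have hCε : C * (C * ε) = g / 64 := by
    rw [hε]
    field_simp
  have hCε0 : 0 < C * ε := by positivity
  have hCε1 : C * ε ≤ g / 64 := by nlinarith
  have hε1 : ε ≤ g / 64 := by nlinarith
  -- the modulus of the second numbers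
  obtain ⟨M, η, hη, hM⟩ : ∃ M η : ℝ, 0 < η ∧ ∀ σ : Equiv.Perm (Fin (n - 1)), σ ∈ Og n →
      ∀ w₀ ∈ Wr P P' Λ, ∀ w₁ ∈ Wr P P' Λ, 0 < w₀ → wc - η < w₀ → w₀ < wc → wc < w₁ →
        w₁ < wc + η → w₁ ≤ 1 →
        Λ {cc hn σ 0} (cc hn σ 1) w₁ w₁ - Λ {cc hn σ 0} (cc hn σ 1) w₀ w₀ ≤ M * (w₁ - w₀) := by
    have h5 : ∀ σ : Equiv.Perm (Fin (n - 1)), ∃ M η : ℝ, 0 < η ∧ (σ ∈ Og n →
        ∀ w₀ ∈ Wr P P' Λ, ∀ w₁ ∈ Wr P P' Λ, 0 < w₀ → wc - η < w₀ → w₀ < wc → wc < w₁ →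
          w₁ < wc + η → w₁ ≤ 1 →
          Λ {cc hn σ 0} (cc hn σ 1) w₁ w₁ - Λ {cc hn σ 0} (cc hn σ 1) w₀ w₀ ≤
            M * (w₁ - w₀)) := by
      intro σ
      by_cases hσ : σ ∈ Og n
      · obtain ⟨M, η, h6, h7⟩ := hf σ hσ
        exact ⟨M, η, h6, fun _ => h7⟩
      · exact ⟨0, 1, one_pos, fun h => absurd h hσ⟩
    choose M η h6 h7 using h5
    obtain ⟨σ₁, -, h8⟩ := Finset.exists_min_image (Finset.univ : Finset (Equiv.Perm (Fin (n - 1))))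
      η ⟨1, Finset.mem_univ _⟩
    obtain ⟨σ₂, -, h9⟩ := Finset.exists_max_image (Finset.univ : Finset (Equiv.Perm (Fin (n - 1))))
      M ⟨1, Finset.mem_univ _⟩
    refine ⟨M σ₂, η σ₁, h6 _, fun σ hσ w₀ a1 w₁ a2 a3 a4 a5 a6 a7 a8 => ?_⟩
    have h10 := h8 σ (Finset.mem_univ _)
    refine (h7 σ hσ w₀ a1 w₁ a2 a3 (by linarith) a5 a6 (by linarith) a8).trans ?_
    exact mul_le_mul_of_nonneg_right (h9 σ (Finset.mem_univ _)) (by linarith)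
  -- the third window
  obtain ⟨δ, hδ⟩ : ∃ δ : ℝ, δ = min (η / 2) (g / (64 * (|M| + 1))) := ⟨_, rfl⟩
  have hδ0 : 0 < δ := by
    rw [hδ]
    exact lt_min (by linarith) (by positivity)
  have hδη : δ < η := by
    have : δ ≤ η / 2 := by rw [hδ]; exact min_le_left _ _
    linarith
  have hδg : (|M| + 1) * δ ≤ g / 64 := by
    have h5 : δ ≤ g / (64 * (|M| + 1)) := by rw [hδ]; exact min_le_right _ _
    rw [le_div_iff₀ (by positivity)] at h5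
    linarith
  obtain ⟨w₂, a1, a2, a3, a4⟩ := ex_gw2 H h3 (x := wc) (y := min (wc + δ) 1) hc0.le
    (lt_min (by linarith) hc1) (min_le_right _ _)
  have a5 : w₂ < wc + δ := a2.trans_le (min_le_left _ _)
  have a6 : w₂ < 1 := a2.trans_le (min_le_right _ _)
  have a7 : 0 < w₂ := by linarith
  -- the constants of the exactness
  obtain ⟨e₀, he₀, hA⟩ : ∃ e₀ : ℝ, 0 < e₀ ∧ ∀ σ : Equiv.Perm (Fin (n - 1)), σ ∈ Og n →
      ∀ (w₀ w₁ e y mv C s : ℝ) (β : ℕ → ℝ), 0 ≤ w₀ → w₀ ≤ w₁ → w₁ ≤ w₂ → e ≤ e₀ →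
        H2S S w₀ w₁ e → V (cc hn σ) β w₀ w₁ y mv C → 1 ≤ C → 0 < s → C * y ≤ s → C * s ≤ mv →
        mv ≤ ∑ i ∈ Finset.range 2, (1 - β i) -
          (((1 - w₂) + (1 - Λ {cc hn σ 0} (cc hn σ 1) w₂ w₂)) - g / 16) + 6 * C * s + g / 16 := by
    have h5 : ∀ σ : Equiv.Perm (Fin (n - 1)), ∃ e₀ : ℝ, 0 < e₀ ∧ (σ ∈ Og n →
        ∀ (w₀ w₁ e y mv C s : ℝ) (β : ℕ → ℝ), 0 ≤ w₀ → w₀ ≤ w₁ → w₁ ≤ w₂ → e ≤ e₀ →
        H2S S w₀ w₁ e → V (cc hn σ) β w₀ w₁ y mv C → 1 ≤ C → 0 < s → C * y ≤ s → C * s ≤ mv →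
        mv ≤ ∑ i ∈ Finset.range 2, (1 - β i) -
          (((1 - w₂) + (1 - Λ {cc hn σ 0} (cc hn σ 1) w₂ w₂)) - g / 16) + 6 * C * s + g / 16) := by
      intro σ
      by_cases hσ : σ ∈ Og n
      · have h8 := exv_two H h3 hF2 hσ a7 a6 a4 (ρ := g / 16) (by linarith)
        rw [vs_two H h3 hσ a7.le a6] at h8
        obtain ⟨e₀, h6, h7⟩ := hA (cc hn σ) w₂ _ (g / 16) a7 a6.le (by linarith) h8
        exact ⟨e₀, h6, fun _ => h7⟩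
      · exact ⟨1, one_pos, fun h => absurd h hσ⟩
    choose e₀ h6 h7 using h5
    obtain ⟨σ₁, -, h8⟩ := Finset.exists_min_image (Finset.univ : Finset (Equiv.Perm (Fin (n - 1))))
      e₀ ⟨1, Finset.mem_univ _⟩
    refine ⟨e₀ σ₁, h6 _, fun σ hσ w₀ w₁ e y mv C s β b1 b2 b3 b4 => ?_⟩
    exact h7 σ hσ w₀ w₁ e y mv C s β b1 b2 b3 (b4.trans (h8 σ (Finset.mem_univ _)))
  -- the two windows
  obtain ⟨d₁, hd₁, h2⟩ := h2 e₀ he₀
  obtain ⟨d₂, hd₂, hv⟩ := hv ε hε0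
  obtain ⟨d, hd⟩ : ∃ d : ℝ, d = min δ (min d₁ d₂) := ⟨_, rfl⟩
  have hd0 : 0 < d := by
    rw [hd]
    exact lt_min hδ0 (lt_min hd₁ hd₂)
  have hdδ : d ≤ δ := by rw [hd]; exact min_le_left _ _
  have hdd₁ : d ≤ d₁ := by rw [hd]; exact (min_le_right _ _).trans (min_le_left _ _)
  have hdd₂ : d ≤ d₂ := by rw [hd]; exact (min_le_right _ _).trans (min_le_right _ _)
  obtain ⟨w₀, b1, b2, b3⟩ := hWd (max (wc - d) 0) wc (le_max_right _ _)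
    (max_lt (by linarith) hc0) hc1.le
  have b4 : wc - d < w₀ := (le_max_left _ _).trans_lt b1
  have b5 : 0 < w₀ := (le_max_right _ _).trans_lt b1
  obtain ⟨w₁, c1, c2, c3⟩ := hWd wc (min (wc + d) w₂) hc0.le
    (lt_min (by linarith) a1) ((min_le_right _ _).trans a6.le)
  have c4 : w₁ < wc + d := c2.trans_le (min_le_left _ _)
  have c5 : w₁ < w₂ := c2.trans_le (min_le_right _ _)
  have hH2 := h2 w₀ b3 w₁ c3 (by linarith) b2 c1 (by linarith)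
  obtain ⟨σ, β, y, mv, hσ, e1, e2, e3, e4, e5⟩ := hv w₀ b3 w₁ c3 (by linarith) b2 c1
    (by linarith)
  have hs : C * y ≤ C * ε := mul_le_mul_of_nonneg_left e3 (by linarith)
  have hmain := hA σ hσ w₀ w₁ e₀ y mv C (C * ε) β b5.le (by linarith) c5.le
    le_rfl hH2 e5 hC hCε0 hs (by rw [hCε]; linarith)
  have hsum : ∑ i ∈ Finset.range 2, (1 - β i) = (1 - β 0) + (1 - β 1) := by
    rw [Finset.sum_range_succ, Finset.sum_range_succ, Finset.sum_range_zero, zero_add]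
  have h6 : 6 * C * (C * ε) = 6 * (g / 64) := by
    rw [← hCε]
    ring
  rw [hsum, h6] at hmain
  have hww : w₂ - w₀ ≤ 2 * δ := by linarith
  have hww0 : 0 ≤ w₂ - w₀ := by linarith
  have hM1 := hM σ hσ w₀ (hW b3) w₂ a3 b5 (by linarith) b2 a1 (by linarith) a6.le
  have hM2 : M * (w₂ - w₀) ≤ (|M| + 1) * (2 * δ) := by
    refine mul_le_mul ?_ hww hww0 (by positivity)
    have := le_abs_self M
    linarith
  have hδ1 : δ ≤ (|M| + 1) * δ := by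
    have := abs_nonneg M
    nlinarith
  linarith

/-- **The volume has no jump**: the calm levels are given by a function `vc`, the constants of the
geometry do not depend on the windows. -/
theorem no_atom_fin (H : Pk hn S P r P' Λ) (h3 : 3 ≤ n) (hF2 : FZX 2) {W : Set ℝ}
    (hW : W ⊆ Wr P P' Λ)
    (hWd : ∀ x y : ℝ, 0 ≤ x → x < y → y ≤ 1 → ∃ w, x < w ∧ w < y ∧ w ∈ W) {wc : ℝ}
    (hc0 : 0 < wc) (hc1 : wc < 1)
    {V : (ℕ → Fin n) → (ℕ → ℝ) → ℝ → ℝ → ℝ → ℝ → ℝ → Prop}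
    (hA : ∀ (c : ℕ → Fin n) (w₂ b ρ : ℝ), 0 < w₂ → w₂ ≤ 1 → 0 < ρ →
      ExvY S w₂ (fun J F ω (i : Fin 2) => F.X J ω (c i)) b → ∃ e₀ : ℝ, 0 < e₀ ∧
      ∀ (w₀ w₁ e y mv C s : ℝ) (β : ℕ → ℝ), 0 ≤ w₀ → w₀ ≤ w₁ → w₁ ≤ w₂ → e ≤ e₀ →
        H2S S w₀ w₁ e → V c β w₀ w₁ y mv C → 1 ≤ C → 0 < s → C * y ≤ s → C * s ≤ mv →
        mv ≤ ∑ i ∈ Finset.range 2, (1 - β i) - b + 6 * C * s + ρ)
    (h2 : ∀ e : ℝ, 0 < e → ∃ d : ℝ, 0 < d ∧ ∀ w₀ ∈ W, ∀ w₁ ∈ W, wc - d < w₀ →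
      w₀ < wc → wc < w₁ → w₁ < wc + d → H2S S w₀ w₁ e)
    (hf : ∀ σ : Equiv.Perm (Fin (n - 1)), σ ∈ Og n →
      FinW (fun w => Λ {cc hn σ 0} (cc hn σ 1) w w) (Wr P P' Λ) wc)
    {vc : ℝ → ℝ} (hvc : FinW vc (Wr P P' Λ) wc)
    (hv : ∀ g : ℝ, 0 < g → (∀ a b : ℝ, a < wc → wc < b → g ≤ vx P P' Λ b - vx P P' Λ a) →
      ∃ C A d : ℝ, 1 ≤ C ∧ 0 ≤ A ∧ 0 < d ∧ ∀ w₀ ∈ W, ∀ w₁ ∈ W,
        wc - d < w₀ → w₀ < wc → wc < w₁ → w₁ < wc + d →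
        ∃ (σ : Equiv.Perm (Fin (n - 1))) (β : ℕ → ℝ) (y mv : ℝ), σ ∈ Og n ∧
          w₀ ≤ β 0 ∧ Λ {cc hn σ 0} (cc hn σ 1) w₀ w₀ ≤ β 1 ∧
          y ≤ A * ((w₁ - w₀) + (vc w₁ - vc w₀)) ∧ vx P P' Λ w₁ - vx P P' Λ w₀ ≤ y + mv ∧
          V (cc hn σ) β w₀ w₁ y mv C) :
    ContinuousAt (vx P P' Λ) wc := by
  refine no_atom_gen H h3 hF2 hW hWd hc0 hc1 hA h2 hf ?_
  intro g hg hj
  obtain ⟨C, A, d, hC, hA0, hd, hv⟩ := hv g hg hj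
  obtain ⟨M, η, hη, hM⟩ := hvc
  refine ⟨C, hC, fun ε hε => ?_⟩
  obtain ⟨B, hB⟩ : ∃ B : ℝ, B = A * (1 + |M|) := ⟨_, rfl⟩
  have hB0 : 0 ≤ B := by rw [hB]; positivity
  refine ⟨min (min d η) (ε / (2 * (B + 1))), lt_min (lt_min hd hη) (by positivity), ?_⟩
  intro w₀ hw₀ w₁ hw₁ a1 a2 a3 a4
  have k1 : min (min d η) (ε / (2 * (B + 1))) ≤ d := (min_le_left _ _).trans (min_le_left _ _)
  have k2 : min (min d η) (ε / (2 * (B + 1))) ≤ η := (min_le_left _ _).trans (min_le_right _ _)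
  have k3 : min (min d η) (ε / (2 * (B + 1))) ≤ ε / (2 * (B + 1)) := min_le_right _ _
  obtain ⟨σ, β, y, mv, hσ, e1, e2, e3, e4, e5⟩ := hv w₀ hw₀ w₁ hw₁ (by linarith) a2 a3
    (by linarith)
  have b1 : 0 < w₀ := (hW hw₀).1.pos
  have b2 : w₁ < 1 := (hW hw₁).1.lt
  have h5 := hM w₀ (hW hw₀) w₁ (hW hw₁) b1 (by linarith) a2 a3 (by linarith) b2.le
  have h6 : w₁ - w₀ ≤ ε / (B + 1) := by
    have : ε / (B + 1) = ε / (2 * (B + 1)) + ε / (2 * (B + 1)) := by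
      field_simp
      ring
    linarith
  have h7 : (w₁ - w₀) + (vc w₁ - vc w₀) ≤ (1 + |M|) * (w₁ - w₀) := by
    have h8 : M * (w₁ - w₀) ≤ |M| * (w₁ - w₀) :=
      mul_le_mul_of_nonneg_right (le_abs_self M) (by linarith)
    linarith
  have h8 : y ≤ ε := by
    refine e3.trans ((mul_le_mul_of_nonneg_left h7 hA0).trans ?_)
    rw [← mul_assoc, ← hB]
    refine (mul_le_mul_of_nonneg_left h6 hB0).trans ?_
    rw [mul_div_assoc', div_le_iff₀ (by linarith)]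
    nlinarith
  exact ⟨σ, β, y, mv, hσ, e1, e2, h8, by linarith [hj w₀ w₁ a2 a3], e5⟩

end Pool.NAT35
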